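import Pool.Agent.H24.L5.Stmts
import Pool.Agent.H70.Dense.X7a

/-!
# L5, row DCK: the two-ends reduction with a loss larger than `g`

Port of `H42/LQ/DCS` with `a = 1`: in one dyadic interval the gain `w ^ (-ε₁)` of the smaller number
of scales is kept, which allows powers `P` with `1 + d - g ≤ P`.
-/

set_option autoImplicit false

namespace Pool.L5

open Finset Real
open Pool.Agent.H32.Dense Pool.Agent.H70.Dense

namespace DCK22

variable {d N : ℕ}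

/-- The inner statement of the form with two ends at all dyadic scales. -/
def SI (d : ℕ) (P ε₁ e₀ c : ℝ) : Prop :=
  ∀ (m N : ℕ) (u : Fin N → Fin d → ℝ) (v : Fin N → Fin d → ℤ)
    (A : Fin N → Finset ℤ) (κ : ℝ), 0 < κ → Function.Injective v →
    (∀ i k, |v i k| ≤ 2 ^ m) → (∀ i, A i ⊆ Finset.Ico 0 (2 ^ m : ℤ)) →
    (∀ i, κ * 2 ^ m ≤ (A i).card) →
    (∀ i, ∀ l ≤ m, ∀ q : ℤ, ((dy (A i) l q).card : ℝ) ≤
      2 * ((2 : ℝ) ^ l / 2 ^ m) ^ e₀ * (A i).card) →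
    c * ((2 : ℝ) ^ m) ^ (-ε₁) * (2 ^ m * κ ^ P * (N : ℝ)) ≤
      ∑ j ∈ Finset.Ico 0 (2 ^ m : ℤ), (cells (2 ^ m) u v A univ j : ℝ)

/-- `SI` for a finite set of lines. -/
lemma SI.finset {P ε₁ e₀ c : ℝ} (h : SI d P ε₁ e₀ c) {m : ℕ} {u : Fin N → Fin d → ℝ}
    {v : Fin N → Fin d → ℤ} {A : Fin N → Finset ℤ} {S : Finset (Fin N)} {κ : ℝ}
    (hκ : 0 < κ) (hinj : Set.InjOn v (S : Set (Fin N))) (hv : ∀ i ∈ S, ∀ k, |v i k| ≤ 2 ^ m)
    (hA : ∀ i ∈ S, A i ⊆ Finset.Ico 0 (2 ^ m : ℤ)) (hcard : ∀ i ∈ S, κ * 2 ^ m ≤ (A i).card)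
    (hE : ∀ i ∈ S, ∀ l ≤ m, ∀ q : ℤ, ((dy (A i) l q).card : ℝ) ≤
      ((2 : ℝ) ^ l / 2 ^ m) ^ e₀ * (A i).card) :
    c * ((2 : ℝ) ^ m) ^ (-ε₁) * (2 ^ m * κ ^ P * (S.card : ℝ)) ≤
      ∑ j ∈ Finset.Ico 0 (2 ^ m : ℤ), (cells (2 ^ m) u v A S j : ℝ) := by
  set e := S.orderEmbOfFin rfl with he
  have hmem : ∀ i, e i ∈ S := fun i => S.orderEmbOfFin_mem rfl i
  refine (h m S.card (fun i => u (e i)) (fun i => v (e i)) (fun i => A (e i)) κ hκ ?_ ?_ ?_ ?_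
    ?_).trans ?_
  · intro i j hij
    exact e.injective (hinj (mem_coe.2 (hmem i)) (mem_coe.2 (hmem j)) hij)
  · exact fun i k => hv _ (hmem i) k
  · exact fun i => hA _ (hmem i)
  · exact fun i => hcard _ (hmem i)
  · intro i l hl q
    refine (hE _ (hmem i) l hl q).trans ?_
    refine mul_le_mul_of_nonneg_right ?_ (Nat.cast_nonneg _)
    have : (0 : ℝ) ≤ ((2 : ℝ) ^ l / 2 ^ m) ^ e₀ := by positivity
    linarith
  · refine sum_le_sum fun j _ => ?_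
    have : ((univ.filter fun i => j ∈ A (e i)).image fun i =>
        rd (pos (2 ^ m) (u (e i)) (v (e i)) j)) ⊆
        ((S.filter fun i => j ∈ A i).image fun i => rd (pos (2 ^ m) (u i) (v i) j)) := by
      intro b hb
      rw [mem_image] at hb ⊢
      obtain ⟨i, hi, rfl⟩ := hb
      rw [mem_filter] at hi
      exact ⟨e i, mem_filter.2 ⟨hmem i, hi.2⟩, rfl⟩
    exact_mod_cast card_le_card this

/-- The bound for one dyadic interval. -/
lemma one_interval {P ε₁ e₀ c : ℝ} (hPd : 1 + (d : ℝ) - ε₁ ≤ P) (hc : 0 < c)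
    (h : SI d P ε₁ e₀ c) {m l : ℕ} (hl : l ≤ m) (q : ℤ)
    {u : Fin N → Fin d → ℝ} {v : Fin N → Fin d → ℤ} {A : Fin N → Finset ℤ} {S : Finset (Fin N)}
    {κ : ℝ} (hκ : 0 < κ) (hinj : Function.Injective v)
    (hv : ∀ i k, |v i k| ≤ 2 ^ m)
    (hA : ∀ i, A i ⊆ Finset.Ico 0 (2 ^ m : ℤ)) (hcard : ∀ i, κ * 2 ^ m ≤ (A i).card)
    (hmax : ∀ i ∈ S, ∀ l' ≤ m, ∀ q' : ℤ, ((dy (A i) l' q').card : ℝ) / ((2 : ℝ) ^ l') ^ e₀ ≤
      ((dy (A i) l q).card : ℝ) / ((2 : ℝ) ^ l) ^ e₀) :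
    (1 / 2 ^ d) * c * ((2 : ℝ) ^ m) ^ (-ε₁) * (2 ^ m * (κ * ((2 : ℝ) ^ l / 2 ^ m) ^ e₀) ^
      P * (S.card : ℝ)) ≤
      ∑ j ∈ (Finset.Ico 0 (2 ^ m : ℤ)).filter (fun j => j / 2 ^ l = q),
        (cells (2 ^ m) u v A univ j : ℝ) := by
  classical
  have hpm : (0 : ℝ) < 2 ^ m := by positivity
  have hpl : (0 : ℝ) < 2 ^ l := by positivity
  rcases S.eq_empty_or_nonempty with hS | ⟨i₀, hi₀⟩
  · subst hS
    rw [card_empty, Nat.cast_zero, mul_zero, mul_zero]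
    exact sum_nonneg fun _ _ => Nat.cast_nonneg _
  -- the density in the interval
  set w : ℝ := (2 : ℝ) ^ l / 2 ^ m with hw
  have hwpos : 0 < w := by positivity
  have hBcard : ∀ i ∈ S, κ * w ^ e₀ * 2 ^ m ≤ ((dy (A i) l q).card : ℝ) := by
    intro i hi
    have h1 := hmax i hi m le_rfl 0
    have h2 : dy (A i) m 0 = A i := by
      refine filter_true_of_mem fun y hy => ?_
      have := mem_Ico.1 (hA i hy)
      exact Int.ediv_eq_zero_of_lt this.1 this.2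
    rw [h2, div_le_div_iff₀ (by positivity) (by positivity)] at h1
    have h3 := hcard i
    have h4 : w ^ e₀ = ((2 : ℝ) ^ l) ^ e₀ / ((2 : ℝ) ^ m) ^ e₀ := by
      rw [hw, Real.div_rpow hpl.le hpm.le]
    have h5 : (0 : ℝ) < ((2 : ℝ) ^ m) ^ e₀ := by positivity
    have h6 : (0 : ℝ) < ((2 : ℝ) ^ l) ^ e₀ := by positivity
    rw [h4]
    have h7 : κ * (((2 : ℝ) ^ l) ^ e₀ / ((2 : ℝ) ^ m) ^ e₀) * 2 ^ m =
      (κ * 2 ^ m * ((2 : ℝ) ^ l) ^ e₀) / ((2 : ℝ) ^ m) ^ e₀ := by ring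
    rw [h7, div_le_iff₀ h5]
    exact (mul_le_mul_of_nonneg_right h3 h6.le).trans h1
  have hne : (dy (A i₀) l q).Nonempty := by
    rw [← card_pos]
    have := hBcard i₀ hi₀
    have h2 : 0 < κ * w ^ e₀ * 2 ^ m := by positivity
    exact_mod_cast lt_of_lt_of_le h2 this
  obtain ⟨y₀, hy₀⟩ := hne
  have hy₀A := mem_Ico.1 (hA i₀ (mem_filter.1 hy₀).1)
  have hy₀q : y₀ / 2 ^ l = q := (mem_filter.1 hy₀).2
  have hplz : (0 : ℤ) < 2 ^ l := by positivity
  have hq0 : 0 ≤ q := by rw [← hy₀q]; exact Int.ediv_nonneg hy₀A.1 hplz.le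
  have hq1 : q * 2 ^ l + 2 ^ l ≤ 2 ^ m := by
    have h1 : (2 : ℤ) ^ m = 2 ^ (m - l) * 2 ^ l := by rw [← pow_add]; congr 1; omega
    have h2 : q < 2 ^ (m - l) := by
      rw [← hy₀q]
      apply Int.ediv_lt_of_lt_mul hplz
      rw [← h1]; exact hy₀A.2
    rw [h1]
    nlinarith
  obtain ⟨T, hTS, hTinj, hTcard⟩ := exists_rep v hinj S (m - l)
  set u' : Fin N → Fin d → ℝ := fun i => pos (2 ^ m) (u i) (v i) (q * 2 ^ l) with hu'
  set v' : Fin N → Fin d → ℤ := fun i => fun c => v i c / 2 ^ (m - l) with hv'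
  set A' : Fin N → Finset ℤ := fun i => (dy (A i) l q).image fun y => y - q * 2 ^ l with hA'
  set κJ : ℝ := κ * w ^ e₀ * (2 ^ m / 2 ^ l) with hκJ
  have hκJpos : 0 < κJ := by positivity
  have hA'card : ∀ i, (A' i).card = (dy (A i) l q).card := fun i =>
    card_image_of_injective _ fun x y hxy => by simpa using hxy
  have hA'sub : ∀ i, A' i ⊆ Finset.Ico 0 (2 ^ l : ℤ) := by
    intro i j hj
    obtain ⟨y, hy, rfl⟩ := mem_image.1 hj
    have h1 : y / 2 ^ l = q := (mem_filter.1 hy).2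
    have h4 := Int.mul_ediv_add_emod y (2 ^ l)
    have h5 := Int.emod_nonneg y hplz.ne'
    have h6 := Int.emod_lt_of_pos y hplz
    rw [h1] at h4
    rw [mem_Ico]
    constructor <;> nlinarith
  have hκJ2 : ∀ i ∈ S, κJ * 2 ^ l ≤ (A' i).card := by
    intro i hi
    rw [hA'card i]
    refine le_trans (le_of_eq ?_) (hBcard i hi)
    rw [hκJ]; field_simp
  have key := h.finset (N := N) (u := u') (v := v') (A := A') (S := T) (κ := κJ)
    (m := l) hκJpos hTinj ?_ (fun i _ => hA'sub i) (fun i hi => hκJ2 i (hTS hi)) ?_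
  · -- conclusion
    have hsum : ∑ j ∈ Finset.Ico 0 (2 ^ l : ℤ), (cells (2 ^ l) u' v' A' T j : ℝ) ≤
        2 ^ d * ∑ j ∈ (Finset.Ico 0 (2 ^ m : ℤ)).filter (fun j => j / 2 ^ l = q),
          (cells (2 ^ m) u v A univ j : ℝ) := by
      calc ∑ j ∈ Finset.Ico 0 (2 ^ l : ℤ), (cells (2 ^ l) u' v' A' T j : ℝ) ≤
          ∑ j ∈ Finset.Ico 0 (2 ^ l : ℤ),
            2 ^ d * (cells (2 ^ m) u v A univ (j + q * 2 ^ l) : ℝ) := by
            refine sum_le_sum fun j hj => ?_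
            have hj' := mem_Ico.1 hj
            have := cells_rescale hl q u v A T j hj'.1 hj'.2
            exact_mod_cast this
        _ = 2 ^ d * ∑ j ∈ (Finset.Ico 0 (2 ^ l : ℤ)).image (fun j => j + q * 2 ^ l),
            (cells (2 ^ m) u v A univ j : ℝ) := by
            rw [← mul_sum, sum_image fun x _ y _ hxy => by simpa using hxy]
        _ ≤ _ := by
            refine mul_le_mul_of_nonneg_left (sum_le_sum_of_subset_of_nonneg ?_
              fun _ _ _ => Nat.cast_nonneg _) (by positivity)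
            intro j hj
            obtain ⟨j', hj', rfl⟩ := mem_image.1 hj
            have hj'' := mem_Ico.1 hj'
            rw [mem_filter, mem_Ico]
            refine ⟨⟨?_, ?_⟩, ?_⟩
            · have : 0 ≤ q * 2 ^ l := by positivity
              linarith [hj''.1]
            · linarith [hj''.2]
            · rw [Int.add_mul_ediv_right _ _ hplz.ne', Int.ediv_eq_zero_of_lt hj''.1 hj''.2,
                zero_add]
    -- comparison of the main terms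
    have hTc : (S.card : ℝ) * w ^ d ≤ T.card := by
      have h1 : (S.card : ℝ) ≤ (2 ^ (m - l)) ^ d * T.card := by exact_mod_cast hTcard
      have h2 : w * 2 ^ (m - l) = 1 := by
        rw [hw]
        have : (2 : ℝ) ^ m = 2 ^ l * 2 ^ (m - l) := by rw [← pow_add]; congr 1; omega
        rw [this]; field_simp
      calc (S.card : ℝ) * w ^ d ≤ ((2 ^ (m - l)) ^ d * T.card) * w ^ d :=
            mul_le_mul_of_nonneg_right h1 (by positivity)
        _ = (w * 2 ^ (m - l)) ^ d * T.card := by ring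
        _ = T.card := by rw [h2, one_pow, one_mul]
    have hw1 : w ≤ 1 := by
      rw [hw, div_le_one hpm]
      exact pow_le_pow_right₀ (by norm_num) hl
    have hκw : κ * w ^ e₀ = κJ * w := by
      rw [hκJ, hw]; field_simp
    have e2 : (2 : ℝ) ^ m * w = 2 ^ l := by
      rw [hw]; field_simp
    have hwp : 1 ≤ w ^ (1 + (d : ℝ) - P - ε₁) :=
      Real.one_le_rpow_of_pos_of_le_one_of_nonpos hwpos hw1 (by linarith)
    have hmain : ((2 : ℝ) ^ m) ^ (-ε₁) * (2 ^ m * (κ * w ^ e₀) ^ P * (S.card : ℝ)) ≤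
        ((2 : ℝ) ^ l) ^ (-ε₁) * (2 ^ l * κJ ^ P * (T.card : ℝ)) := by
      have e3 : ((2 : ℝ) ^ l) ^ (-ε₁) = ((2 : ℝ) ^ m) ^ (-ε₁) * w ^ (-ε₁) := by
        rw [← e2, Real.mul_rpow hpm.le hwpos.le]
      have e4 : (κ * w ^ e₀) ^ P = κJ ^ P * w ^ P := by
        rw [hκw, Real.mul_rpow hκJpos.le hwpos.le]
      have e5 : w ^ P * w ^ (1 + (d : ℝ) - P - ε₁) = w ^ (-ε₁) * (w * w ^ d) := by
        have q1 : w ^ (-ε₁) * (w * w ^ d) = w ^ (-ε₁ + (1 + (d : ℝ))) := by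
          rw [Real.rpow_add hwpos, Real.rpow_add hwpos, Real.rpow_one, Real.rpow_natCast]
        rw [q1, ← Real.rpow_add hwpos]
        congr 1; ring
      have q2 : (0 : ℝ) < ((2 : ℝ) ^ m) ^ (-ε₁) := by positivity
      have q3 : (0 : ℝ) < κJ ^ P := by positivity
      have q4 : (0 : ℝ) < w ^ P := by positivity
      have q5 : (0 : ℝ) ≤ (S.card : ℝ) := Nat.cast_nonneg _
      calc ((2 : ℝ) ^ m) ^ (-ε₁) * (2 ^ m * (κ * w ^ e₀) ^ P * (S.card : ℝ)) =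
          (((2 : ℝ) ^ m) ^ (-ε₁) * 2 ^ m * κJ ^ P * (S.card : ℝ)) * w ^ P := by
            rw [e4]; ring
        _ ≤ (((2 : ℝ) ^ m) ^ (-ε₁) * 2 ^ m * κJ ^ P * (S.card : ℝ)) *
            (w ^ P * w ^ (1 + (d : ℝ) - P - ε₁)) := by
            refine mul_le_mul_of_nonneg_left ?_
              (mul_nonneg (mul_nonneg (mul_nonneg q2.le hpm.le) q3.le) q5)
            exact le_mul_of_one_le_right q4.le hwp
        _ = (((2 : ℝ) ^ m) ^ (-ε₁) * w ^ (-ε₁)) * ((2 ^ m * w) * κJ ^ P * ((S.card : ℝ) * w ^ d)) := by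
            rw [e5]; ring
        _ ≤ (((2 : ℝ) ^ m) ^ (-ε₁) * w ^ (-ε₁)) * ((2 ^ m * w) * κJ ^ P * (T.card : ℝ)) := by
            refine mul_le_mul_of_nonneg_left (mul_le_mul_of_nonneg_left hTc (by positivity))
              (by positivity)
        _ = _ := by rw [e3, e2]
    have h9 : (0 : ℝ) < 2 ^ d := by positivity
    calc 1 / 2 ^ d * c * ((2 : ℝ) ^ m) ^ (-ε₁) *
        (2 ^ m * (κ * w ^ e₀) ^ P * (S.card : ℝ)) =
        (1 / 2 ^ d) * c * (((2 : ℝ) ^ m) ^ (-ε₁) * (2 ^ m * (κ * w ^ e₀) ^ P * (S.card : ℝ))) := by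
          ring
      _ ≤ (1 / 2 ^ d) * c * (((2 : ℝ) ^ l) ^ (-ε₁) * (2 ^ l * κJ ^ P * (T.card : ℝ))) :=
          mul_le_mul_of_nonneg_left hmain (by positivity)
      _ = (1 / 2 ^ d) * (c * ((2 : ℝ) ^ l) ^ (-ε₁) * (2 ^ l * κJ ^ P * (T.card : ℝ))) := by ring
      _ ≤ (1 / 2 ^ d) * (2 ^ d * ∑ j ∈ (Finset.Ico 0 (2 ^ m : ℤ)).filter (fun j => j / 2 ^ l = q),
          (cells (2 ^ m) u v A univ j : ℝ)) :=
          mul_le_mul_of_nonneg_left (key.trans hsum) (by positivity)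
      _ = _ := by field_simp
  · intro i _ c
    have h1 := hv i c
    have hpk : (0 : ℤ) < 2 ^ (m - l) := by positivity
    have hml : (2 : ℤ) ^ m = 2 ^ l * 2 ^ (m - l) := by rw [← pow_add]; congr 1; omega
    rw [abs_le] at h1 ⊢
    simp only [hv']
    constructor
    · rw [Int.le_ediv_iff_mul_le hpk]
      nlinarith [h1.1]
    · apply Int.ediv_le_of_le_mul hpk
      rw [← hml]; exact h1.2
  · intro i hi l' hl' q'
    have h1 := hmax i (hTS hi) l' (hl'.trans hl) (q' + q * 2 ^ (l - l'))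
    have hpl' : (0 : ℤ) < 2 ^ l' := by positivity
    have hll : (2 : ℤ) ^ l = 2 ^ (l - l') * 2 ^ l' := by rw [← pow_add]; congr 1; omega
    have h2 : (dy (A' i) l' q').card ≤ (dy (A i) l' (q' + q * 2 ^ (l - l'))).card := by
      refine card_le_card_of_injOn (fun j => j + q * 2 ^ l) ?_ (fun x _ y _ hxy => by simpa using hxy)
      intro j hj
      have hj := mem_filter.1 (mem_coe.1 hj)
      obtain ⟨y, hy, hyj⟩ := mem_image.1 hj.1
      have hyj' : j + q * 2 ^ l = y := by rw [← hyj]; ring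
      rw [mem_coe]
      refine mem_filter.2 ⟨?_, ?_⟩
      · change j + q * 2 ^ l ∈ A i
        rw [hyj']; exact (mem_filter.1 hy).1
      · change (j + q * 2 ^ l) / 2 ^ l' = _
        rw [hll, ← mul_assoc, Int.add_mul_ediv_right _ _ hpl'.ne', hj.2]
    have h2' : ((dy (A' i) l' q').card : ℝ) ≤ (dy (A i) l' (q' + q * 2 ^ (l - l'))).card := by
      exact_mod_cast h2
    rw [hA'card i]
    have h5 : (0 : ℝ) < ((2 : ℝ) ^ l') ^ e₀ := by positivity
    have h6 : (0 : ℝ) < ((2 : ℝ) ^ l) ^ e₀ := by positivity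
    rw [div_le_div_iff₀ h5 h6] at h1
    rw [Real.div_rpow (by positivity) (by positivity), div_mul_eq_mul_div, le_div_iff₀ h6]
    calc ((dy (A' i) l' q').card : ℝ) * ((2 : ℝ) ^ l) ^ e₀ ≤
        (dy (A i) l' (q' + q * 2 ^ (l - l'))).card * ((2 : ℝ) ^ l) ^ e₀ :=
          mul_le_mul_of_nonneg_right h2' h6.le
      _ ≤ _ := h1
      _ = _ := mul_comm _ _

/-- The form with bounded potentials implies the inner statement. -/
lemma si_of_dense {g P ε₁ e₀ : ℝ} (he₀ : 0 < e₀) (hε₁ : g < ε₁) (h : CtP d g P) :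
    ∃ c : ℝ, 0 < c ∧ SI d P ε₁ e₀ c := by
  obtain ⟨c, hc, hD⟩ := h ε₁ hε₁ (Real.log 2 * (1 + 6 * (1 / (1 - (2 : ℝ) ^ (-e₀)))))
  refine ⟨c, hc, ?_⟩
  intro m N u v A κ hκ hinj hv hA hcard hE
  refine hD m N u v A κ hκ hinj hv hA hcard ?_
  intro i x hx
  exact energy he₀ (hA i) (hE i) hx

end DCK22

open DCK22 in
/-- Row DCK. -/
theorem dck : DCKStmt := by
  classical
  intro d g P hg hP1 hPd h ε hε
  have hP0 : 0 < P := by linarith
  set η : ℝ := (ε - g) / 2 with hη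
  have hηpos : 0 < η := by rw [hη]; linarith
  set e₀ : ℝ := η / (2 * P) with he₀
  have he₀pos : 0 < e₀ := by positivity
  obtain ⟨c, hc, hSI⟩ := si_of_dense (ε₁ := g + η) he₀pos (by linarith) h
  set c₁ : ℝ := (1 / 2 ^ d) * c with hc₁
  have hc₁pos : 0 < c₁ := by positivity
  have hl2 : 0 < Real.log 2 := Real.log_pos (by norm_num)
  set K : ℝ := 1 + 1 / (η / 2 * Real.log 2) with hK
  have hKpos : 0 < K := by positivity
  refine ⟨c₁ / K, by positivity, ?_⟩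
  intro m N u v A κ hκ hinj hv hA hcard
  have hpm : (0 : ℝ) < 2 ^ m := by positivity
  have hpmz : (0 : ℤ) < 2 ^ m := by positivity
  change _ ≤ ∑ j ∈ Finset.Ico 0 (2 ^ m : ℤ), (cells (2 ^ m) u v A univ j : ℝ)
  -- choice of the intervals
  set Pf : Finset (ℕ × ℤ) := (range (m + 1)) ×ˢ (Finset.Ico 0 (2 ^ m : ℤ)) with hPf
  have hPne : Pf.Nonempty := ⟨(0, 0), by
    rw [hPf, mem_product]; exact ⟨by simp, mem_Ico.2 ⟨le_rfl, hpmz⟩⟩⟩
  have hch : ∀ i, ∃ p ∈ Pf, ∀ l' ≤ m, ∀ q' : ℤ,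
      ((dy (A i) l' q').card : ℝ) / ((2 : ℝ) ^ l') ^ e₀ ≤
      ((dy (A i) p.1 p.2).card : ℝ) / ((2 : ℝ) ^ p.1) ^ e₀ := by
    intro i
    obtain ⟨p, hp, hmax⟩ := exists_max_image Pf
      (fun p => ((dy (A i) p.1 p.2).card : ℝ) / ((2 : ℝ) ^ p.1) ^ e₀) hPne
    refine ⟨p, hp, fun l' hl' q' => ?_⟩
    by_cases hq : q' ∈ Finset.Ico 0 (2 ^ m : ℤ)
    · exact hmax (l', q') (by rw [hPf, mem_product]; exact ⟨by simp; omega, hq⟩)
    · have : dy (A i) l' q' = ∅ := by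
        rw [dy, filter_eq_empty_iff]
        intro y hy hyq
        apply hq
        have h1 := mem_Ico.1 (hA i hy)
        have hpl : (0 : ℤ) < 2 ^ l' := by positivity
        rw [mem_Ico, ← hyq]
        exact ⟨Int.ediv_nonneg h1.1 hpl.le, lt_of_le_of_lt (Int.ediv_le_self _ h1.1) h1.2⟩
      rw [this, card_empty, Nat.cast_zero, zero_div]
      positivity
  choose p hpP hpmax using hch
  -- one level
  have hlev : ∃ l ∈ range (m + 1), N ≤ (m + 1) * (univ.filter fun i => (p i).1 = l).card := by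
    by_contra hcon
    push Not at hcon
    have h1 : N = ∑ l ∈ range (m + 1), (univ.filter fun i => (p i).1 = l).card := by
      rw [← card_eq_sum_card_fiberwise (f := fun i => (p i).1) (s := (univ : Finset (Fin N)))
        (t := range (m + 1)) fun i _ => (mem_product.1 (hpP i)).1]
      simp
    have h2 : ∑ l ∈ range (m + 1), (m + 1) * (univ.filter fun i => (p i).1 = l).card <
        ∑ l ∈ range (m + 1), N := sum_lt_sum_of_nonempty ⟨0, by simp⟩ hcon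
    rw [← mul_sum, ← h1, sum_const, card_range, smul_eq_mul] at h2
    exact lt_irrefl _ h2
  obtain ⟨l, hl, hNl⟩ := hlev
  have hlm : l ≤ m := by simpa [Nat.lt_succ_iff] using hl
  set S : Finset (Fin N) := univ.filter fun i => (p i).1 = l with hS
  set Sq : ℤ → Finset (Fin N) := fun q => S.filter fun i => (p i).2 = q with hSq
  have hone : ∀ q : ℤ, c₁ * ((2 : ℝ) ^ m) ^ (-(g + η)) * (2 ^ m *
      (κ * ((2 : ℝ) ^ l / 2 ^ m) ^ e₀) ^ P * ((Sq q).card : ℝ)) ≤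
      ∑ j ∈ (Finset.Ico 0 (2 ^ m : ℤ)).filter (fun j => j / 2 ^ l = q),
        (cells (2 ^ m) u v A univ j : ℝ) := by
    intro q
    refine one_interval (by linarith) hc hSI hlm q hκ hinj hv hA hcard ?_
    intro i hi
    have h1 := mem_filter.1 hi
    have h2 : (p i).1 = l := (mem_filter.1 h1.1).2
    intro l' hl' q'
    have := hpmax i l' hl' q'
    rw [h2, h1.2] at this
    exact this
  have hsum1 : ∑ q ∈ Finset.Ico 0 (2 ^ m : ℤ),
      ∑ j ∈ (Finset.Ico 0 (2 ^ m : ℤ)).filter (fun j => j / 2 ^ l = q),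
        (cells (2 ^ m) u v A univ j : ℝ) =
      ∑ j ∈ Finset.Ico 0 (2 ^ m : ℤ), (cells (2 ^ m) u v A univ j : ℝ) := by
    refine sum_fiberwise_of_maps_to (fun j hj => ?_) _
    have h1 := mem_Ico.1 hj
    have hpl : (0 : ℤ) < 2 ^ l := by positivity
    exact mem_Ico.2 ⟨Int.ediv_nonneg h1.1 hpl.le, lt_of_le_of_lt (Int.ediv_le_self _ h1.1) h1.2⟩
  have hcardS : (S.card : ℝ) = ∑ q ∈ Finset.Ico 0 (2 ^ m : ℤ), ((Sq q).card : ℝ) := by
    have := card_eq_sum_card_fiberwise (f := fun i => (p i).2) (s := S)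
      (t := Finset.Ico 0 (2 ^ m : ℤ)) fun i _ => (mem_product.1 (hpP i)).2
    rw [this]; push_cast; rfl
  set X : ℝ := κ * ((2 : ℝ) ^ l / 2 ^ m) ^ e₀ with hX
  have hXpos : 0 < X := by positivity
  have h1 : c₁ * ((2 : ℝ) ^ m) ^ (-(g + η)) * (2 ^ m * X ^ P * (S.card : ℝ)) ≤
      ∑ j ∈ Finset.Ico 0 (2 ^ m : ℤ), (cells (2 ^ m) u v A univ j : ℝ) := by
    rw [← hsum1]
    calc c₁ * ((2 : ℝ) ^ m) ^ (-(g + η)) * (2 ^ m * X ^ P * (S.card : ℝ)) =
          ∑ q ∈ Finset.Ico 0 (2 ^ m : ℤ), c₁ * ((2 : ℝ) ^ m) ^ (-(g + η)) *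
          (2 ^ m * X ^ P * ((Sq q).card : ℝ)) := by
          rw [hcardS, mul_sum, mul_sum]
      _ ≤ _ := sum_le_sum fun q _ => hone q
  refine le_trans ?_ h1
  -- the loss
  have hN : (N : ℝ) ≤ (m + 1) * S.card := by exact_mod_cast hNl
  have hm1 : (m : ℝ) + 1 ≤ K * ((2 : ℝ) ^ m) ^ (η / 2) := succ_le_pow m (by positivity)
  have hXb : κ ^ P * ((2 : ℝ) ^ m) ^ (-(η / 2)) ≤ X ^ P := by
    rw [hX, Real.mul_rpow hκ.le (by positivity)]
    refine mul_le_mul_of_nonneg_left ?_ (by positivity)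
    rw [← Real.rpow_mul (by positivity)]
    have e1 : e₀ * P = η / 2 := by rw [he₀]; field_simp
    rw [e1, Real.rpow_neg hpm.le, ← Real.inv_rpow hpm.le]
    refine Real.rpow_le_rpow (by positivity) ?_ (by positivity)
    rw [inv_eq_one_div]
    exact div_le_div_of_nonneg_right (one_le_pow₀ (by norm_num)) hpm.le
  have e3 : ((2 : ℝ) ^ m) ^ (-ε) * ((2 : ℝ) ^ m) ^ (η / 2) =
      ((2 : ℝ) ^ m) ^ (-(g + η)) * ((2 : ℝ) ^ m) ^ (-(η / 2)) := by
    rw [← Real.rpow_add hpm, ← Real.rpow_add hpm]; congr 1; rw [hη]; ring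
  have hp1 : (0 : ℝ) < ((2 : ℝ) ^ m) ^ (-ε) := by positivity
  have hp4 : (0 : ℝ) < ((2 : ℝ) ^ m) ^ (-(g + η)) := by positivity
  have hp2 : (0 : ℝ) ≤ κ ^ P := by positivity
  have hp3 : (0 : ℝ) ≤ (S.card : ℝ) := Nat.cast_nonneg _
  calc c₁ / K * ((2 : ℝ) ^ m) ^ (-ε) * (2 ^ m * κ ^ P * (N : ℝ)) ≤
      c₁ / K * ((2 : ℝ) ^ m) ^ (-ε) * (2 ^ m * κ ^ P *
        ((K * ((2 : ℝ) ^ m) ^ (η / 2)) * (S.card : ℝ))) := by
        refine mul_le_mul_of_nonneg_left (mul_le_mul_of_nonneg_left ?_ (by positivity))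
          (by positivity)
        exact hN.trans (mul_le_mul_of_nonneg_right hm1 hp3)
    _ = c₁ * (2 ^ m * (κ ^ P * (((2 : ℝ) ^ m) ^ (-ε) * ((2 : ℝ) ^ m) ^ (η / 2))) *
        (S.card : ℝ)) := by field_simp
    _ = c₁ * ((2 : ℝ) ^ m) ^ (-(g + η)) * (2 ^ m * (κ ^ P * ((2 : ℝ) ^ m) ^ (-(η / 2))) *
        (S.card : ℝ)) := by
        rw [e3]; ring
    _ ≤ c₁ * ((2 : ℝ) ^ m) ^ (-(g + η)) * (2 ^ m * X ^ P * (S.card : ℝ)) :=
        mul_le_mul_of_nonneg_left (mul_le_mul_of_nonneg_right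
          (mul_le_mul_of_nonneg_left hXb hpm.le) hp3) (by positivity)

end Pool.L5
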